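import Pool.Agent.Helper61.P3.St4

/-! Project P3 (MP_cb927e_an), module SU0 (helper84): small classes. -/

set_option autoImplicit false

open MeasureTheory Set Filter Topology
open scoped ENNReal RealInnerProductSpace

namespace Pool.Agent.Helper84.P3

open Pool.Agent.Helper61.P3 Pool.Agent.Helper20.RG Pool.Agent.Helper20.EQ
open Pool.Agent.Helper68.LM (Pl BB Bd Av HL ft fm DQ)
open Pool.Agent.Helper68.EP (elt GapP)

private theorem measAv (ν : Measure Pl) [SFinite ν] (t : ℝ) (g : Pl → ℝ) (hg : Measurable g) :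
    Measurable (Av ν t g) := by
  have h1 : StronglyMeasurable (Function.uncurry fun (x y : Pl) => g (x - t • y)) := by
    apply Measurable.stronglyMeasurable
    exact hg.comp (by fun_prop)
  exact h1.integral_prod_right.measurable

private instance instbx : SFinite bx := by unfold bx; infer_instance
private instance instsg (s : ℝ) : SFinite (sg s) := by unfold sg; infer_instance

private theorem measZc (c : Pl) (φ τ : ℝ → ℝ) (u w : ℕ) (k : ℤ) (j : ℕ) (g : Pl → ℝ)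
    (hg : Measurable g) : Measurable (Zc c φ τ u w k j g) := by
  have hY : ∀ (s : ℝ) (c : Pl) (m : ℕ) (l : ℝ), Measurable (Y s c m l k g) := by
    intro s c m l
    unfold Y
    exact (measAv (sg s) _ _ (measAv bx _ _ hg)).comp (by fun_prop)
  unfold Zc
  exact (hY _ _ _ _).sub (hY _ _ _ _)

private theorem cheb (c : Pl) (φ τ : ℝ → ℝ) (u ρ : ℕ) (k : ℤ) (g : Pl → ℝ) (hg : Measurable g) :
    volume {x | (Hh c φ τ u ρ k g x).Nonempty} ≤
      ENNReal.ofReal ((4 : ℝ) ^ (ρ + 1)) *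
        ∑ j ∈ Finset.range (2 ^ u), ∫⁻ x, ‖Zc c φ τ u 0 k j g x‖ₑ ^ 2 := by
  have hsub : {x | (Hh c φ τ u ρ k g x).Nonempty} ⊆ ⋃ j ∈ Finset.range (2 ^ u),
      {x | ENNReal.ofReal (((4 : ℝ) ^ (ρ + 1))⁻¹) ≤ ‖Zc c φ τ u 0 k j g x‖ₑ ^ 2} := by
    rintro x ⟨j, hj, hx⟩
    simp only [mem_iUnion, Finset.mem_range, mem_ofPred_eq]
    refine ⟨j, hj, ?_⟩
    have e1 : ‖Zc c φ τ u 0 k j g x‖ₑ = ENNReal.ofReal |Zc c φ τ u 0 k j g x| := by
      rw [← Real.norm_eq_abs, ofReal_norm]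
    rw [e1, ← ENNReal.ofReal_pow (abs_nonneg _)]
    apply ENNReal.ofReal_le_ofReal
    have e2 : ((4 : ℝ) ^ (ρ + 1))⁻¹ = ((2 : ℝ) ^ (-((ρ : ℤ) + 1))) ^ 2 := by
      rw [zpow_neg, inv_pow]
      congr 1
      have : ((ρ : ℤ) + 1) = ((ρ + 1 : ℕ) : ℤ) := by push_cast; ring
      rw [this, zpow_natCast, ← pow_mul, mul_comm, pow_mul]
      norm_num
    rw [e2]
    exact pow_le_pow_left₀ (by positivity) hx 2
  refine (measure_mono hsub).trans ?_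
  refine (measure_biUnion_finset_le _ _).trans ?_
  rw [Finset.mul_sum]
  refine Finset.sum_le_sum fun j _ => ?_
  have hm : AEMeasurable (fun x => ‖Zc c φ τ u 0 k j g x‖ₑ ^ 2) volume :=
    ((measZc c φ τ u 0 k j g hg).enorm.pow_const 2).aemeasurable
  have h1 := mul_meas_ge_le_lintegral₀ hm (ENNReal.ofReal (((4 : ℝ) ^ (ρ + 1))⁻¹))
  have h4 : (0 : ℝ) < 4 ^ (ρ + 1) := by positivity
  calc volume {x | ENNReal.ofReal (((4 : ℝ) ^ (ρ + 1))⁻¹) ≤ ‖Zc c φ τ u 0 k j g x‖ₑ ^ 2}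
      = ENNReal.ofReal ((4 : ℝ) ^ (ρ + 1)) * (ENNReal.ofReal (((4 : ℝ) ^ (ρ + 1))⁻¹) *
        volume {x | ENNReal.ofReal (((4 : ℝ) ^ (ρ + 1))⁻¹) ≤ ‖Zc c φ τ u 0 k j g x‖ₑ ^ 2}) := by
        rw [← mul_assoc, ← ENNReal.ofReal_mul h4.le, mul_inv_cancel₀ h4.ne', ENNReal.ofReal_one,
          one_mul]
    _ ≤ _ := by gcongr

/-- the number of hits is at most the number of chords -/
private theorem hh_card (c : Pl) (φ τ : ℝ → ℝ) (u ρ : ℕ) (k : ℤ) (g : Pl → ℝ) (x : Pl) :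
    ((Hh c φ τ u ρ k g x).ncard : ℝ) ≤ 2 ^ u := by
  have h1 : Hh c φ τ u ρ k g x ⊆ ↑(Finset.range (2 ^ u)) := by
    intro j hj
    simpa using hj.1
  have h2 := Set.ncard_le_ncard h1 (Finset.finite_toSet _)
  rw [Set.ncard_coe_finset, Finset.card_range] at h2
  exact_mod_cast h2

/-- a type with small `u` has small `n` and `ρ`, and there is a hit -/
private theorem ty_small {V : ℝ} (hV : 0 < V) {U R : ℕ}
    (hR : 22000 / V * (2 : ℝ) ^ ((101 / 100 : ℝ) * U) < ((2 : ℝ) ^ (99 / 100 : ℝ)) ^ R)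
    {c : Pl} {φ τ : ℝ → ℝ} {u n ρ : ℕ} {k l : ℤ} {f : Pl → ℝ} {x : Pl} (hu : u < U)
    (h : TY c φ τ V u n ρ k l f x) :
    n < U ∧ ρ < R ∧ (Hh c φ τ u ρ k (lev f (l - 1 + n)) x).Nonempty := by
  obtain ⟨h1, h2⟩ := h
  have hn : n < U := by omega
  have hpos : 0 < Pool.Agent.Helper61.P3.mt V u n ρ := by
    unfold Pool.Agent.Helper61.P3.mt; positivity
  refine ⟨hn, ?_, ?_⟩
  · by_contra hcon
    push Not at hcon
    have h3 := h2.trans (hh_card c φ τ u ρ k (lev f (l - 1 + n)) x)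
    unfold Pool.Agent.Helper61.P3.mt at h3
    have h4 : (2 : ℝ) ^ ((u : ℝ) + (99 / 100) * R - (101 / 100) * U) ≤
        (2 : ℝ) ^ ((u : ℝ) + ρ - n - ((n : ℝ) + ρ) / 100) := by
      apply Real.rpow_le_rpow_of_exponent_le (by norm_num)
      have h5 : (R : ℝ) ≤ ρ := by exact_mod_cast hcon
      have h6 : (n : ℝ) ≤ U := by exact_mod_cast hn.le
      linarith
    have h7 : V / 22000 * (2 : ℝ) ^ ((u : ℝ) + (99 / 100) * R - (101 / 100) * U) ≤ 2 ^ u :=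
      le_trans (by gcongr) h3
    rw [Real.rpow_sub (by norm_num), Real.rpow_add (by norm_num), Real.rpow_natCast,
      Real.rpow_mul (by norm_num), Real.rpow_natCast] at h7
    set P := ((2 : ℝ) ^ (99 / 100 : ℝ)) ^ R with hP
    set Q := (2 : ℝ) ^ ((101 / 100 : ℝ) * U) with hQ
    have hQ0 : 0 < Q := by rw [hQ]; positivity
    have h2u : (0 : ℝ) < 2 ^ u := by positivity
    have h8 : V / 22000 * P ≤ Q := by
      have h9 : V / 22000 * (2 ^ u * P / Q) = 2 ^ u * (V / 22000 * P / Q) := by ring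
      rw [h9] at h7
      have h10 : V / 22000 * P / Q ≤ 1 := by
        by_contra h11
        push Not at h11
        nlinarith
      rwa [div_le_one hQ0] at h10
    have h12 : 22000 / V * (V / 22000 * P) ≤ 22000 / V * Q := by gcongr
    have h13 : 22000 / V * (V / 22000 * P) = P := by field_simp
    rw [h13] at h12
    linarith
  · rw [← Set.ncard_pos ((Set.finite_lt_nat (2 ^ u)).subset fun j hj => hj.1)]
    have h3 := hpos.trans_le h2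
    exact_mod_cast h3

theorem hSU0 (hRIY : Pool.Agent.Helper61.P3.StRIY) (hSHQ : Pool.Agent.Helper61.P3.StSHQ) :
    Pool.Agent.Helper61.P3.StSU0 := by
  classical
  intro φ τ A c hφ hA hG V U hV
  obtain ⟨C, hC, hS⟩ := hSHQ φ τ A c hφ hA hG
  obtain ⟨R, hR⟩ := pow_unbounded_of_one_lt (22000 / V * (2 : ℝ) ^ ((101 / 100 : ℝ) * U))
    (show (1 : ℝ) < (2 : ℝ) ^ (99 / 100 : ℝ) from
      Real.one_lt_rpow (by norm_num) (by norm_num))
  let B : ℕ → ℕ → ℝ := fun u ρ => 4 ^ (ρ + 1) * (C * (C * (2 : ℝ) ^ (3 * u)))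
  have hB : ∀ u ρ, 0 ≤ B u ρ := fun u ρ => by positivity
  let X : ℕ → ℕ → ℕ → (Pl → ℝ) → ℝ≥0∞ := fun u ρ u' g =>
    if u' = u then ∑' k : ℤ, volume {x | (Hh c φ τ u ρ k g x).Nonempty} else 0
  have hX : ∀ u ρ g, ∑' u' : ℕ, X u ρ u' g =
      ∑' k : ℤ, volume {x | (Hh c φ τ u ρ k g x).Nonempty} := by
    intro u ρ g
    exact tsum_ite_eq u _
  have hXB : ∀ u ρ, 2 ≤ u → ∀ g : Pl → ℝ, BB g → (∀ x, 0 ≤ g x ∧ g x ≤ 1) →
      ∑' u' : ℕ, X u ρ u' g ≤ ENNReal.ofReal (B u ρ) * ∫⁻ x, ‖g x‖ₑ ^ 2 := by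
    intro u ρ hu g hg _
    rw [hX]
    obtain ⟨-, -, h3, h4⟩ := hS u 0 g hu hg
    calc ∑' k : ℤ, volume {x | (Hh c φ τ u ρ k g x).Nonempty}
        ≤ ∑' k : ℤ, ENNReal.ofReal ((4 : ℝ) ^ (ρ + 1)) *
          ∑ j ∈ Finset.range (2 ^ u), ∫⁻ x, ‖Zc c φ τ u 0 k j g x‖ₑ ^ 2 :=
          ENNReal.tsum_le_tsum fun k => cheb c φ τ u ρ k g hg.1
      _ = ENNReal.ofReal ((4 : ℝ) ^ (ρ + 1)) * ∑' k : ℤ,
          ∑ j ∈ Finset.range (2 ^ u), ∫⁻ x, ‖Zc c φ τ u 0 k j g x‖ₑ ^ 2 := ENNReal.tsum_mul_left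
      _ ≤ ENNReal.ofReal ((4 : ℝ) ^ (ρ + 1)) * (ENNReal.ofReal C *
          (ENNReal.ofReal (C * (2 : ℝ) ^ (3 * u)) * ∫⁻ x, ‖g x‖ₑ ^ 2)) := by
          gcongr
          exact h3.trans (by gcongr)
      _ = ENNReal.ofReal (B u ρ) * ∫⁻ x, ‖g x‖ₑ ^ 2 := by
          rw [← mul_assoc, ← mul_assoc, ← ENNReal.ofReal_mul (by positivity), mul_assoc,
            ← mul_assoc, ← ENNReal.ofReal_mul (by positivity)]
          congr 2
          ring
  let T : Finset (ℕ × ℕ × ℕ) :=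
    (Finset.range U ×ˢ Finset.range U ×ˢ Finset.range R).filter fun t => 2 ≤ t.1
  let D : ℕ × ℕ × ℕ → ℝ := fun t => 8 * (2 : ℝ) ^ (-(3 * (t.2.1 : ℤ))) * B t.1 t.2.2
  have hD : ∀ t, 0 ≤ D t := fun t => by
    have := hB t.1 t.2.2
    positivity
  refine ⟨1 + ∑ t ∈ T, D t, by
    have := Finset.sum_nonneg fun t (_ : t ∈ T) => hD t
    linarith, ?_⟩
  intro f hf hf0
  have hset : ∀ l : ℤ, volume {x | ∃ (k : ℤ) (u n ρ : ℕ), 2 ≤ u ∧ u < U ∧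
      TY c φ τ V u n ρ k l f x} ≤ ∑ t ∈ T, ∑' u' : ℕ, X t.1 t.2.2 u' (lev f (l - 1 + t.2.1)) := by
    intro l
    have h1 : {x | ∃ (k : ℤ) (u n ρ : ℕ), 2 ≤ u ∧ u < U ∧ TY c φ τ V u n ρ k l f x} ⊆
        ⋃ t ∈ T, ⋃ k : ℤ, {x | (Hh c φ τ t.1 t.2.2 k (lev f (l - 1 + t.2.1)) x).Nonempty} := by
      rintro x ⟨k, u, n, ρ, hu2, huU, hty⟩
      obtain ⟨hn, hρ, hne⟩ := ty_small hV hR huU hty
      refine mem_iUnion₂.2 ⟨(u, n, ρ), ?_, mem_iUnion.2 ⟨k, hne⟩⟩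
      simp only [T, Finset.mem_filter, Finset.mem_product, Finset.mem_range]
      exact ⟨⟨huU, hn, hρ⟩, hu2⟩
    refine (measure_mono h1).trans ((measure_biUnion_finset_le _ _).trans ?_)
    refine Finset.sum_le_sum fun t _ => ?_
    rw [hX]
    exact measure_iUnion_le _
  calc ∑' l : ℤ, ENNReal.ofReal ((2 : ℝ) ^ (3 * l)) * volume {x | ∃ (k : ℤ) (u n ρ : ℕ), 2 ≤ u ∧
        u < U ∧ TY c φ τ V u n ρ k l f x}
      ≤ ∑' l : ℤ, ∑ t ∈ T, ENNReal.ofReal ((2 : ℝ) ^ (3 * l)) *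
        ∑' u' : ℕ, X t.1 t.2.2 u' (lev f (l - 1 + t.2.1)) := by
        refine ENNReal.tsum_le_tsum fun l => ?_
        rw [← Finset.mul_sum]
        gcongr
        exact hset l
    _ = ∑ t ∈ T, ∑' l : ℤ, ENNReal.ofReal ((2 : ℝ) ^ (3 * l)) *
        ∑' u' : ℕ, X t.1 t.2.2 u' (lev f (l - 1 + t.2.1)) :=
        Summable.tsum_finsetSum fun _ _ => ENNReal.summable
    _ ≤ ∑ t ∈ T, ENNReal.ofReal (D t) * ∫⁻ x, ENNReal.ofReal (f x) ^ (3 : ℝ) := by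
        refine Finset.sum_le_sum fun t ht => ?_
        have h2 : 2 ≤ t.1 := (Finset.mem_filter.1 ht).2
        exact hRIY (B t.1 t.2.2) (X t.1 t.2.2) (hB _ _) (hXB t.1 t.2.2 h2) f t.2.1 hf hf0
    _ = ENNReal.ofReal (∑ t ∈ T, D t) * ∫⁻ x, ENNReal.ofReal (f x) ^ (3 : ℝ) := by
        rw [← Finset.sum_mul, ENNReal.ofReal_sum_of_nonneg fun t _ => hD t]
    _ ≤ ENNReal.ofReal (1 + ∑ t ∈ T, D t) * ∫⁻ x, ENNReal.ofReal (f x) ^ (3 : ℝ) := by
        gcongr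
        linarith

end Pool.Agent.Helper84.P3
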